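import Pool.Agent.U731.BA.X
import Pool.Agent.U731.BA.C

/-!
# MP_8e98f2_gt, Q1: two norms on the isotopy classes of products of implantations

Q1 asks for a barbell in `S⁴` whose implantation is not smoothly isotopic to the identity. An
implantation is the identity near a point, so in the coordinates `h : ℝ⁴ → S⁴` of an open embedding
(the complement of the point) it is given by a diffeomorphism `F` of `ℝ⁴` which is the identity off a
compact set. We study the smooth isotopy classes of the maps `push h F` of this form, and of their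
products, in all dimensions `n ≥ 1` and for all Hausdorff `n`-manifolds `X`.

1. For every set `P` of linear maps: the classes which contain a map `push h H` with all derivatives of
   `H` in `P` are closed under products.
2. Stretch: the least `L` such that the class contains `push h H` with `H` bi-Lipschitz with constant
   `L`. The inverse has the same stretch, a product has at most the maximum of the stretches. So the
   classes of stretch at most `L` form a group, and for finitely many implantations one constant serves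
   for all their products.
3. If `(L⁴ - 1) √n < L⁴ + 1` (for `n = 4`: `L⁴ < 3`) a class of stretch `≤ L` is trivial. So in `S⁴` an
   implantation is trivial if and only if its stretch is less than `3^(1/4)`.
4. Complexity: the least `L` such that the class contains `push h H` where `H` is the identity off the
   cube `[-1,1]ⁿ` and the derivatives of `H` and of its inverse are Lipschitz with constant `L`. It is
   finite; there are finitely many classes of complexity at most `L`, only the trivial one if `L < 1`;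
   a product of at most `mⁿ` maps of complexity at most `L` has complexity at most `m L`. So the products
   of `N` factors taken from finitely many implantations in `S⁴` and their inverses have complexity at
   most `C N^(1/4)` (for `N = m⁴`).
5. The classes of 1. do not change if `h` is replaced by `Φ ∘ h`, where `Φ` is a diffeomorphism of `X`
   isotopic to the identity (for example a rotation of `S⁴`: implantations in different places can be
   moved into the same coordinates).
-/

set_option autoImplicit false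
set_option linter.unusedSectionVars false

open Set Filter Topology Metric Function
open scoped Manifold ContDiff

namespace Pool.Agent.Results.MP_8e98f2_gt.BoundedImplantations

open Pool.Agent.U731.BA

/-- `ℝⁿ` -/
abbrev R (n : ℕ) : Type := EuclideanSpace ℝ (Fin n)

/-- the unit sphere of `ℝ⁵` -/
abbrev S4 : Type := sphere (0 : EuclideanSpace ℝ (Fin (4 + 1))) 1

/-- the bijection `F` of `ℝⁿ` is a diffeomorphism and the identity off a ball -/
structure Compact {n : ℕ} (F : Equiv.Perm (R n)) : Prop where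
  smooth : ContDiff ℝ ∞ F
  smooth_symm : ContDiff ℝ ∞ F.symm
  supp : ∃ r, ∀ x, r ≤ ‖x‖ → F x = x

section

variable {n : ℕ} {X : Type} [TopologicalSpace X] [ChartedSpace (R n) X]

/-- `h` is a diffeomorphism of `ℝⁿ` onto an open subset of `X` -/
def Coordinates (n : ℕ) {X : Type} [TopologicalSpace X] [ChartedSpace (R n) X] (h : R n → X) : Prop :=
  Injective h ∧ ∀ z, IsLocalDiffeomorphAt (𝓡 n) (𝓡 n) ∞ h z

/-- the map of `X` given by `F` in the coordinates `h`, the identity off the image of `h` -/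
noncomputable def push (h : R n → X) (F : Equiv.Perm (R n)) (x : X) : X :=
  open Classical in if x ∈ range h then h (F (invFun h x)) else x

/-- `φ` is a diffeomorphism -/
def IsDiffeo (n : ℕ) {X : Type} [TopologicalSpace X] [ChartedSpace (R n) X] (φ : X → X) : Prop :=
  ∃ Φ : X ≃ₘ^∞⟮𝓡 n, 𝓡 n⟯ X, ∀ x, Φ x = φ x

/-- `φ` and `ψ` are joined by a smooth path of diffeomorphisms -/
def Isotopic (n : ℕ) {X : Type} [TopologicalSpace X] [ChartedSpace (R n) X] (φ ψ : X → X) : Prop :=
  ∃ K : ℝ × X → X, ContMDiff ((𝓘(ℝ, ℝ)).prod (𝓡 n)) (𝓡 n) ∞ K ∧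
    (∀ t, IsDiffeo n (fun x => K (t, x))) ∧ (∀ x, K (0, x) = φ x) ∧ ∀ x, K (1, x) = ψ x

/-- `φ` is isotopic to a map `push h H` with all derivatives of `H` in `P` -/
def Contains (h : R n → X) (P : Set (R n →L[ℝ] R n)) (φ : X → X) : Prop :=
  ∃ H : Equiv.Perm (R n), Compact H ∧ (∀ x, fderiv ℝ H x ∈ P) ∧ Isotopic n φ (push h H)

/-- the class of `φ` has stretch at most `L`: it contains `push h H` such that the derivatives of `H`
change the Euclidean length at most by the factor `L`, in both directions -/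
def StretchLE (h : R n → X) (L : ℝ) (φ : X → X) : Prop :=
  Contains h {T | ∀ w, ‖w‖ ≤ L * ‖T w‖ ∧ ‖T w‖ ≤ L * ‖w‖} φ

/-- the derivative of `F` is Lipschitz with constant `L` -/
def DerivLipschitz (L : ℝ) (F : Equiv.Perm (R n)) : Prop :=
  ∀ x y, ‖fderiv ℝ F x - fderiv ℝ F y‖ ≤ L * ‖x - y‖

/-- the class of `φ` has complexity at most `L`: it contains `push h H` where `H` is the identity off the
cube `[-1,1]ⁿ` and the derivatives of `H` and of its inverse are Lipschitz with constant `L` -/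
def ComplexityLE (h : R n → X) (L : ℝ) (φ : X → X) : Prop :=
  ∃ H : Equiv.Perm (R n), Compact H ∧ (∀ x, (∃ i, 1 < |x i|) → H x = x) ∧ DerivLipschitz L H ∧
    DerivLipschitz L H⁻¹ ∧ Isotopic n φ (push h H)

/-- the composition of the maps in the list -/
def product (l : List (X → X)) : X → X := l.foldr (fun φ ψ x => φ (ψ x)) fun x => x

end

section proofs

variable {n : ℕ} {X : Type} [TopologicalSpace X] [ChartedSpace (R n) X]

theorem cd_iff {F : Equiv.Perm (R n)} : Compact F ↔ CD F :=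
  ⟨fun h => ⟨h.1, h.2, h.3⟩, fun h => ⟨h.1, h.2, h.3⟩⟩

theorem push_eq (h : R n → X) (F : Equiv.Perm (R n)) : push h F = Pool.Agent.U211.ISO.ext h F := rfl

theorem iso_iff {φ ψ : X → X} : Isotopic n φ ψ ↔ SI n φ ψ := Iff.rfl

variable [T2Space X] {h : R n → X} (hh : Coordinates n h)

include hh

theorem contains_mul (hn : 0 < n) {P : Set (R n →L[ℝ] R n)} {φ ψ : X → X} (h1 : Contains h P φ)
    (h2 : Contains h P ψ) : Contains h P (fun x => φ (ψ x)) := by
  obtain ⟨F, cF, dF, iF⟩ := h1
  obtain ⟨G, cG, dG, iG⟩ := h2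
  obtain ⟨H, cH, dH, iH⟩ := mul_rep hn (cd_iff.1 cF) (cd_iff.1 cG) dF dG
  refine ⟨H, cd_iff.2 cH, dH, ?_⟩
  have e1 : SI n (fun x => φ (ψ x)) (fun x => push h F (push h G x)) := SI.comp iF iG
  have e2 : SI n (push h (F * G)) (push h H) := si_ext hh.1 hh.2 iH
  exact SI.trans (e1.congr (fun _ => rfl) fun x => (ext_mul hh.1 F G x).symm) e2

theorem stretch_inv {L : ℝ} {φ φ' : X → X} (h1 : StretchLE h L φ) (e : ∀ x, φ (φ' x) = x) :
    StretchLE h L φ' := by
  obtain ⟨F, cF, dF, iF⟩ := h1
  refine ⟨F⁻¹, cd_iff.2 (cd_iff.1 cF).inv, inv_BL (cd_iff.1 cF) dF, ?_⟩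
  exact SI.inv iF e fun x => ext_inv hh.1 F x

theorem push_refl {F : Equiv.Perm (R n)} (cF : Compact F) : Isotopic n (push h F) (push h F) :=
  si_ext hh.1 hh.2 (cd_iff.1 cF).refl

theorem stretch_push {F : Equiv.Perm (R n)} (cF : Compact F) : ∃ L : ℝ, 1 ≤ L ∧
    StretchLE h L (push h F) := by
  obtain ⟨L, hL, h1⟩ := exists_BL (cd_iff.1 cF)
  exact ⟨L, hL, F, cF, h1, push_refl hh cF⟩

omit hh in
omit [T2Space X] in
theorem stretch_mono {L L' : ℝ} (hL : L ≤ L') {φ : X → X} (h1 : StretchLE h L φ) :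
    StretchLE h L' φ := by
  obtain ⟨F, cF, dF, iF⟩ := h1
  exact ⟨F, cF, fun x => BL_mono hL (dF x), iF⟩

theorem stretch_closure (hn : 0 < n) {S : Set (Equiv.Perm (R n))} (hS : S.Finite)
    (hc : ∀ F ∈ S, Compact F) : ∃ L : ℝ, 1 ≤ L ∧ ∀ F ∈ Subgroup.closure S,
      StretchLE h L (push h F) := by
  have h0 : ∃ L : ℝ, 1 ≤ L ∧ ∀ F ∈ S, StretchLE h L (push h F) := by
    induction S, hS using Set.Finite.induction_on with
    | empty => exact ⟨1, le_rfl, fun F hF => absurd hF (Set.notMem_empty F)⟩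
    | @insert F S _ _ ih =>
      obtain ⟨L, hL, h1⟩ := ih fun G hG => hc G (Set.mem_insert_of_mem F hG)
      obtain ⟨M, hM, h2⟩ := stretch_push hh (hc F (Set.mem_insert F S))
      refine ⟨max L M, le_max_of_le_left hL, fun G hG => ?_⟩
      rcases Set.mem_insert_iff.1 hG with rfl | hG
      · exact stretch_mono (le_max_right _ _) h2
      · exact stretch_mono (le_max_left _ _) (h1 G hG)
  obtain ⟨L, hL, h1⟩ := h0
  refine ⟨L, hL, fun F hF => ?_⟩
  induction hF using Subgroup.closure_induction with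
  | mem F hF => exact h1 F hF
  | one =>
    refine ⟨1, cd_iff.2 CD.one, fun x => ?_, push_refl hh (cd_iff.2 CD.one)⟩
    rw [Pool.Agent.U731.BA.fderiv_one]
    intro w
    have := norm_nonneg w
    constructor <;> (change ‖w‖ ≤ L * ‖w‖; nlinarith)
  | mul F G _ _ hF hG =>
    obtain ⟨H, c, d, i⟩ := contains_mul hh hn hF hG
    exact ⟨H, c, d, SI.congr i (fun x => (ext_mul hh.1 F G x).symm) fun _ => rfl⟩
  | inv F _ hF =>
    refine stretch_inv hh hF fun x => ?_
    have := ext_inv hh.1 F⁻¹ x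
    rw [inv_inv] at this
    exact this

theorem stretch_gap {L : ℝ} (hL : 1 ≤ L) (hLn : (L ^ 4 - 1) * Real.sqrt n < L ^ 4 + 1) {φ : X → X}
    (h1 : StretchLE h L φ) : Isotopic n φ (fun x => x) := by
  obtain ⟨F, cF, dF, iF⟩ := h1
  have e := si_ext hh.1 hh.2 (iso_of_bilip (cd_iff.1 cF) hL hLn dF)
  exact SI.trans iF ((e.congr (fun x => ext_one hh.1 x) fun _ => rfl).symm)

theorem complexity_of_sm {L : ℝ} {G : Equiv.Perm (R n)} (hG : Sm L G) {φ : X → X}
    (h1 : SI n φ (push h G)) : ComplexityLE h L φ := by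
  obtain ⟨c, g, d, d'⟩ := hG
  refine ⟨G, cd_iff.2 c, fun x hx => g.1 x ?_, d, d', h1⟩
  obtain ⟨i, hi⟩ := hx
  intro hx
  have h2 := hx i
  have e : x i - (0 : R n) i = x i := by simp
  rw [e] at h2
  linarith

omit hh in
omit [T2Space X] in
theorem sm_of_complexity {L : ℝ} {φ : X → X} (h1 : ComplexityLE h L φ) :
    ∃ G, Sm L G ∧ SI n φ (push h G) := by
  obtain ⟨G, c, s, d, d', i⟩ := h1
  refine ⟨G, ⟨cd_iff.1 c, good_cube (cd_iff.1 c) one_pos fun x hx => s x ?_, d, d'⟩, i⟩
  obtain ⟨i, hi⟩ := hx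
  refine ⟨i, ?_⟩
  have e : x i - (0 : R n) i = x i := by simp
  rwa [e] at hi

theorem complexity_push {F : Equiv.Perm (R n)} (cF : Compact F) : ∃ L : ℝ, 0 ≤ L ∧
    ComplexityLE h L (push h F) := by
  obtain ⟨L, G, hL, hG, i⟩ := exists_sm (cd_iff.1 cF)
  exact ⟨L, hL, complexity_of_sm hh hG (si_ext hh.1 hh.2 i)⟩

theorem complexity_finite (L : ℝ) : ∃ S : Set (X → X), S.Finite ∧ ∀ φ, ComplexityLE h L φ →
    ∃ ψ ∈ S, Isotopic n φ ψ := by
  classical
  obtain ⟨S, hS⟩ := finite_classes n (L := max L 0) (le_max_right _ _)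
  refine ⟨(S.image (push h) : Finset (X → X)), Finset.finite_toSet _, fun φ hφ => ?_⟩
  obtain ⟨G, hG, i⟩ := sm_of_complexity hφ
  obtain ⟨H, hH, cH, j⟩ := hS G (hG.mono (le_max_left _ _))
  exact ⟨push h H, Finset.mem_coe.2 (Finset.mem_image_of_mem _ hH),
    SI.trans i (si_ext hh.1 hh.2 j)⟩

theorem complexity_gap {L : ℝ} (hL : L < 1) {φ : X → X} (h1 : ComplexityLE h L φ) :
    Isotopic n φ (fun x => x) := by
  obtain ⟨G, hG, i⟩ := sm_of_complexity h1
  obtain ⟨c, g, d, -⟩ := hG.mono (le_max_left L 0)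
  have e := si_ext hh.1 hh.2 (iso_of_small c (le_max_right _ _) (max_lt hL one_pos) g d)
  exact SI.trans i ((e.congr (fun x => ext_one hh.1 x) fun _ => rfl).symm)

theorem complexity_product (hn : 0 < n) {m : ℕ} {L : ℝ} (hL : 0 ≤ L) (l : List (X → X))
    (hl : l.length ≤ m ^ n) (h1 : ∀ φ ∈ l, ComplexityLE h L φ) :
    ComplexityLE h (m * L) (product l) := by
  have key : ∀ l : List (X → X), (∀ φ ∈ l, ComplexityLE h L φ) →
      ∃ l' : List (Equiv.Perm (R n)), l'.length = l.length ∧ (∀ G ∈ l', Sm L G) ∧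
        SI n (product l) (push h l'.prod) := by
    intro l
    induction l with
    | nil =>
      intro _
      refine ⟨[], rfl, fun G hG => absurd hG List.not_mem_nil, ?_⟩
      have := si_ext (X := X) hh.1 hh.2 (CD.one (n := n)).refl
      exact this.congr (fun x => ext_one hh.1 x) fun _ => rfl
    | cons φ l ih =>
      intro h2
      obtain ⟨l', e1, e2, e3⟩ := ih fun ψ hψ => h2 ψ (List.mem_cons_of_mem _ hψ)
      obtain ⟨G, hG, i⟩ := sm_of_complexity (h2 φ List.mem_cons_self)
      refine ⟨G :: l', by rw [List.length_cons, List.length_cons, e1], fun H hH => ?_, ?_⟩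
      · rcases List.mem_cons.1 hH with rfl | hH
        · exact hG
        · exact e2 H hH
      · rw [List.prod_cons]
        exact (SI.comp i e3).congr (fun _ => rfl) fun x => (ext_mul hh.1 G l'.prod x).symm
  obtain ⟨l', e1, e2, e3⟩ := key l h1
  obtain ⟨Ψ, hΨ, j⟩ := sm_prod hn hL l' (by rw [e1]; exact hl) e2
  exact complexity_of_sm hh hΨ (SI.trans e3 (si_ext hh.1 hh.2 j))

theorem complexity_words (hn : 0 < n) {S : Set (Equiv.Perm (R n))} (hS : S.Finite)
    (hc : ∀ F ∈ S, Compact F) : ∃ C : ℝ, 0 ≤ C ∧ ∀ (m : ℕ) (l : List (Equiv.Perm (R n))),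
      l.length ≤ m ^ n → (∀ F ∈ l, F ∈ S ∨ F⁻¹ ∈ S) → ComplexityLE h (m * C) (push h l.prod) := by
  have h0 : ∃ C : ℝ, 0 ≤ C ∧ ∀ F, F ∈ S ∨ F⁻¹ ∈ S → ∃ G, Sm C G ∧ Iso F G := by
    induction S, hS using Set.Finite.induction_on with
    | empty =>
      refine ⟨0, le_rfl, fun F hF => ?_⟩
      rcases hF with hF | hF <;> exact absurd hF (Set.notMem_empty _)
    | @insert F S _ _ ih =>
      obtain ⟨L, hL, h1⟩ := ih fun G hG => hc G (Set.mem_insert_of_mem F hG)
      have cF := cd_iff.1 (hc F (Set.mem_insert F S))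
      obtain ⟨M, G₁, hM, h2, i2⟩ := exists_sm cF
      obtain ⟨N, G₂, hN, h3, i3⟩ := exists_sm cF.inv
      refine ⟨max L (max M N), le_max_of_le_left hL, fun G hG => ?_⟩
      rcases hG with hG | hG
      · rcases Set.mem_insert_iff.1 hG with rfl | hG
        · exact ⟨G₁, h2.mono ((le_max_left _ _).trans (le_max_right _ _)), i2⟩
        · obtain ⟨H, a, b⟩ := h1 G (Or.inl hG)
          exact ⟨H, a.mono (le_max_left _ _), b⟩
      · rcases Set.mem_insert_iff.1 hG with hG | hG
        · have e : G = F⁻¹ := by rw [← hG, inv_inv]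
          rw [e]
          exact ⟨G₂, h3.mono ((le_max_right _ _).trans (le_max_right _ _)), i3⟩
        · obtain ⟨H, a, b⟩ := h1 G (Or.inr hG)
          exact ⟨H, a.mono (le_max_left _ _), b⟩
  obtain ⟨C, hC, h1⟩ := h0
  refine ⟨C, hC, fun m l hl hl' => ?_⟩
  have key : ∀ l : List (Equiv.Perm (R n)), (∀ F ∈ l, F ∈ S ∨ F⁻¹ ∈ S) →
      ∃ l' : List (Equiv.Perm (R n)), l'.length = l.length ∧ (∀ G ∈ l', Sm C G) ∧
        Iso l.prod l'.prod := by
    intro l
    induction l with
    | nil => exact fun _ => ⟨[], rfl, fun G hG => absurd hG List.not_mem_nil, CD.one.refl⟩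
    | cons F l ih =>
      intro h2
      obtain ⟨l', e1, e2, e3⟩ := ih fun ψ hψ => h2 ψ (List.mem_cons_of_mem _ hψ)
      obtain ⟨G, hG, i⟩ := h1 F (h2 F List.mem_cons_self)
      refine ⟨G :: l', by rw [List.length_cons, List.length_cons, e1], fun H hH => ?_, ?_⟩
      · rcases List.mem_cons.1 hH with rfl | hH
        · exact hG
        · exact e2 H hH
      · rw [List.prod_cons, List.prod_cons]
        exact i.mul e3
  obtain ⟨l', e1, e2, e3⟩ := key l hl'
  obtain ⟨Ψ, hΨ, j⟩ := sm_prod hn hC l' (by rw [e1]; exact hl) e2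
  have hcl : CD l'.prod := by
    clear e1 e3 hΨ j
    induction l' with
    | nil => exact CD.one
    | cons G l' ih =>
      rw [List.prod_cons]
      exact (e2 G List.mem_cons_self).1.mul (ih fun H hH => e2 H (List.mem_cons_of_mem _ hH))
  exact complexity_of_sm hh hΨ (si_ext hh.1 hh.2 (e3.trans hcl j))

omit hh in
omit [T2Space X] in
/-- change of coordinates -/
theorem contains_coord {h : R n → X} (hi : Injective h) {P : Set (R n →L[ℝ] R n)} {φ Φ : X → X}
    (hΦ : Isotopic n Φ (fun x => x)) (h1 : Contains (fun z => Φ (h z)) P φ) : Contains h P φ := by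
  obtain ⟨H, cH, dH, iH⟩ := h1
  obtain ⟨Ψ, hΨ⟩ := SI.left hΦ
  refine ⟨H, cH, dH, ?_⟩
  have hinj : Injective fun z => Φ (h z) := fun z w hzw => by
    have h2 : Φ (h z) = Φ (h w) := hzw
    rw [← hΨ, ← hΨ] at h2
    exact hi (Ψ.injective h2)
  have e : ∀ x, Ψ.symm (push (fun z => Φ (h z)) H (Φ x)) = push h H x := by
    intro x
    by_cases hx : x ∈ range h
    · obtain ⟨z, rfl⟩ := hx
      have e1 : push (fun z => Φ (h z)) H (Φ (h z)) = Φ (h (H z)) :=
        Pool.Agent.U211.ISO.ext_of hinj H z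
      have e2 : push h H (h z) = h (H z) := Pool.Agent.U211.ISO.ext_of hi H z
      rw [e1, e2, ← hΨ, Ψ.symm_apply_apply]
    · have hx' : Φ x ∉ range fun z => Φ (h z) := by
        rintro ⟨z, hz⟩
        have h2 : Φ (h z) = Φ x := hz
        rw [← hΨ, ← hΨ] at h2
        exact hx ⟨z, Ψ.injective h2⟩
      have e1 : push (fun z => Φ (h z)) H (Φ x) = Φ x := Pool.Agent.U211.ISO.ext_off _ hx'
      have e2 : push h H x = x := Pool.Agent.U211.ISO.ext_off _ hx
      rw [e1, e2, ← hΨ, Ψ.symm_apply_apply]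
  have hs : SI n (fun x => Ψ.symm x) (fun x : X => x) := by
    refine SI.inv hΦ (fun x => ?_) fun x => rfl
    rw [← hΨ]
    exact Ψ.apply_symm_apply x
  have s1 : SI n φ (fun x => Ψ.symm (φ (Φ x))) :=
    ((SI.comp hs.symm (SI.comp (si_refl (SI.left iH)) (SI.symm hΦ)))).congr (fun _ => rfl)
      fun _ => rfl
  have s2 : SI n (fun x => Ψ.symm (φ (Φ x))) (push h H) :=
    (SI.comp (si_refl (SI.left hs)) (SI.comp iH (si_refl (SI.left hΦ)))).congr (fun _ => rfl) e
  exact SI.trans s1 s2

omit hh in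
omit [T2Space X] in
theorem contains_coord_iff {h : R n → X} (hi : Injective h) {P : Set (R n →L[ℝ] R n)}
    {φ Φ : X → X} (hΦ : Isotopic n Φ (fun x => x)) :
    Contains (fun z => Φ (h z)) P φ ↔ Contains h P φ := by
  refine ⟨contains_coord hi hΦ, fun h1 => ?_⟩
  obtain ⟨Ψ, hΨ⟩ := SI.left hΦ
  have hs : SI n (fun x => Ψ.symm x) (fun x : X => x) := by
    refine SI.inv hΦ (fun x => ?_) fun x => rfl
    rw [← hΨ]
    exact Ψ.apply_symm_apply x
  have hinj : Injective fun z => Φ (h z) := fun z w hzw => by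
    have h2 : Φ (h z) = Φ (h w) := hzw
    rw [← hΨ, ← hΨ] at h2
    exact hi (Ψ.injective h2)
  refine contains_coord hinj (Φ := fun x => Ψ.symm x) hs ?_
  have e : (fun z => Ψ.symm (Φ (h z))) = h := by
    funext z
    rw [← hΨ, Ψ.symm_apply_apply]
  rw [e]
  exact h1

end proofs

/-- **Two norms on the isotopy classes of products of implantations.** -/
theorem result :
    (∀ (n : ℕ), 1 ≤ n → ∀ (X : Type) [TopologicalSpace X] [ChartedSpace (R n) X]
      [IsManifold (𝓡 n) ∞ X] [T2Space X] (h : R n → X), Coordinates n h →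
      -- (1) products with derivatives in a given set
      (∀ (P : Set (R n →L[ℝ] R n)) (φ ψ : X → X), Contains h P φ → Contains h P ψ →
        Contains h P (fun x => φ (ψ x))) ∧
      -- (2) the stretch
      (∀ (L M : ℝ) (φ ψ : X → X), StretchLE h L φ → StretchLE h M ψ →
        StretchLE h (max L M) (fun x => φ (ψ x)) ∧
          ∀ φ' : X → X, (∀ x, φ (φ' x) = x) → StretchLE h L φ') ∧
      (∀ S : Set (Equiv.Perm (R n)), S.Finite → (∀ F ∈ S, Compact F) →
        ∃ L : ℝ, 1 ≤ L ∧ ∀ F ∈ Subgroup.closure S, StretchLE h L (push h F)) ∧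
      -- (3) the gap
      (∀ (L : ℝ) (φ : X → X), 1 ≤ L → (L ^ 4 - 1) * Real.sqrt n < L ^ 4 + 1 → StretchLE h L φ →
        Isotopic n φ (fun x => x)) ∧
      -- (4) the complexity
      (∀ F : Equiv.Perm (R n), Compact F → ∃ L : ℝ, 0 ≤ L ∧ ComplexityLE h L (push h F)) ∧
      (∀ L : ℝ, ∃ S : Set (X → X), S.Finite ∧ ∀ φ, ComplexityLE h L φ → ∃ ψ ∈ S, Isotopic n φ ψ) ∧
      (∀ (L : ℝ) (φ : X → X), L < 1 → ComplexityLE h L φ → Isotopic n φ (fun x => x)) ∧
      (∀ (m : ℕ) (L : ℝ) (l : List (X → X)), 0 ≤ L → l.length ≤ m ^ n →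
        (∀ φ ∈ l, ComplexityLE h L φ) → ComplexityLE h (m * L) (product l)) ∧
      (∀ S : Set (Equiv.Perm (R n)), S.Finite → (∀ F ∈ S, Compact F) → ∃ C : ℝ, 0 ≤ C ∧
        ∀ (m : ℕ) (l : List (Equiv.Perm (R n))), l.length ≤ m ^ n → (∀ F ∈ l, F ∈ S ∨ F⁻¹ ∈ S) →
          ComplexityLE h (m * C) (push h l.prod)) ∧
      -- (5) the coordinates
      (∀ (P : Set (R n →L[ℝ] R n)) (φ Φ : X → X), Isotopic n Φ (fun x => x) →
        (Contains (fun z => Φ (h z)) P φ ↔ Contains h P φ))) ∧
    -- the sphere of dimension four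
    (∀ h : R 4 → S4, Coordinates 4 h → ∀ F : Equiv.Perm (R 4), Compact F →
      ((∃ L : ℝ, 1 ≤ L ∧ L ^ 4 < 3 ∧ StretchLE h L (push h F)) ↔
        Isotopic 4 (push h F) (fun x => x))) := by
  have hfact := Fact.mk (@finrank_euclideanSpace_fin ℝ _ (4 + 1))
  refine ⟨fun n hn X _ _ _ _ h hh => ⟨fun P φ ψ h1 h2 => contains_mul hh hn h1 h2,
    fun L M φ ψ h1 h2 => ⟨contains_mul hh hn (stretch_mono (le_max_left _ _) h1)
      (stretch_mono (le_max_right _ _) h2), fun φ' e => stretch_inv hh h1 e⟩,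
    fun S hS hc => stretch_closure hh hn hS hc, fun L φ hL hLn h1 => stretch_gap hh hL hLn h1,
    fun F cF => complexity_push hh cF, fun L => complexity_finite hh L,
    fun L φ hL h1 => complexity_gap hh hL h1,
    fun m L l hL hl h1 => complexity_product hh hn hL l hl h1,
    fun S hS hc => complexity_words hh hn hS hc,
    fun P φ Φ hΦ => contains_coord_iff hh.1 hΦ⟩, fun h hh F cF => ⟨?_, fun hi => ?_⟩⟩
  · rintro ⟨L, hL, hL4, h1⟩
    refine stretch_gap hh hL ?_ h1
    have h4 : Real.sqrt ((4 : ℕ) : ℝ) = 2 := by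
      rw [show (((4 : ℕ) : ℝ)) = 2 ^ 2 by norm_num]
      exact Real.sqrt_sq (by norm_num)
    rw [h4]
    linarith
  · refine ⟨1, le_rfl, by norm_num, 1, cd_iff.2 CD.one, fun x => ?_, ?_⟩
    · rw [Pool.Agent.U731.BA.fderiv_one]
      intro w
      constructor <;> (change ‖w‖ ≤ 1 * ‖w‖; rw [one_mul])
    · have e := si_ext hh.1 hh.2 (CD.one (n := 4)).refl
      exact SI.trans hi (e.congr (fun x => ext_one hh.1 x) fun _ => rfl)

end Pool.Agent.Results.MP_8e98f2_gt.BoundedImplantations
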