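import Pool.Agent.U987.BI.Path
import Pool.Agent.U498.AI.Sph

/-!
# MP_8e98f2_gt, Q1: diffeomorphisms of `S⁴` joined to the identity with distortion less than the
golden ratio

Q1 asks for a barbell in `S⁴` whose implantation, a diffeomorphism `φ` of `S⁴` homotopic to the
identity, is not smoothly isotopic to the identity.  By theorems of Perron and Quinn every
implantation is isotopic to the identity through homeomorphisms.  We show that `φ` represents the
trivial element of `π₀ Diff(S⁴)` if the local bi-Lipschitz distortion of the homeomorphisms of such a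
path is at most a constant `ρ` less than the golden ratio `(1 + √5) / 2 = 1.618…`: let `f_t`,
`0 ≤ t ≤ 1`, be a path of homeomorphisms of the round sphere from the identity to `φ` such that every
`(t₀, x)` has a neighbourhood `U` of `x` and `s > 0` such that for `|t - t₀| ≤ s` there is a factor
`a > 0` (depending on `t`) with

`a |p - q| ≤ |f_t p - f_t q| ≤ ρ a |p - q|` for all `p, q ∈ U`.

Then `φ` is smoothly isotopic to the identity, and for every `ε > 0` there is a smooth isotopy with
all its stages `ε`-close to stages of `f`. So a barbell implantation which represents a nontrivial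
element of `π₀ Diff(S⁴)` has in every path of homeomorphisms to the identity local distortions which
come arbitrarily close to the golden ratio or exceed it.

The maps `f_t` need not be differentiable anywhere for `0 < t < 1` (they may for instance contain
logarithmic spirals at a dense set of points), and nothing is assumed about the dependence on `t`
except continuity.

Proof: the maps `f_t` (extended to a neighbourhood of `S⁴` in `ℝ⁵`) are mollified in `ℝ⁵` with a
kernel whose gradient is supported in a thin shell, with one small radius `δ`, and projected back to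
`S⁴`. If `D` is the derivative of the mollified map at `x` and `w` a unit vector tangent to the sphere
there, then the tangential part of `D w` has a positive inner product with `f_t x₊ - f_t x₋`, where
`x₊`, `x₋` are the points of the sphere next to `x + δ w`, `x - δ w`: this follows from a four point
inequality in the target, in which only distances occur, for pairs of points which are symmetric with
respect to the hyperplane orthogonal to `w`. The isotopies between nearby `t` are straight line
homotopies.
-/

set_option autoImplicit false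

open Set Filter Topology Metric Function
open scoped Manifold ContDiff

namespace Pool.Agent.Results.MP_8e98f2_gt.GoldenRatioIsotopy

/-- `ℝ⁴` -/
abbrev R4 : Type := EuclideanSpace ℝ (Fin 4)

/-- `ℝ⁵` -/
abbrev R5 : Type := EuclideanSpace ℝ (Fin (4 + 1))

section defs

variable {X : Type} [TopologicalSpace X] [ChartedSpace R4 X]

/-- `φ` is a diffeomorphism of `X` -/
def IsDiffeo (φ : X → X) : Prop := ∃ Φ : X ≃ₘ^∞⟮𝓡 4, 𝓡 4⟯ X, ∀ x, Φ x = φ x

/-- `K` is a smooth path of diffeomorphisms of `X` from the identity to `φ` -/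
def IsSmoothIsotopy (φ : X → X) (K : ℝ × X → X) : Prop :=
  ContMDiff ((𝓘(ℝ, ℝ)).prod (𝓡 4)) (𝓡 4) ∞ K ∧ (∀ t, IsDiffeo (fun x => K (t, x))) ∧
    (∀ x, K (0, x) = x) ∧ ∀ x, K (1, x) = φ x

/-- `f_t`, `0 ≤ t ≤ 1`, is a continuous path of bijections (hence of homeomorphisms, if `X` is
compact and Hausdorff) of `X` from the identity to `φ` -/
def IsTopIsotopy {X : Type} [TopologicalSpace X] (φ : X → X) (f : ℝ × X → X) : Prop :=
  ContinuousOn f (Icc (0 : ℝ) 1 ×ˢ univ) ∧ (∀ t ∈ Icc (0 : ℝ) 1, Bijective (fun x => f (t, x))) ∧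
    (∀ x, f (0, x) = x) ∧ ∀ x, f (1, x) = φ x

/-- on the set `U` the map `G : X → ℝ⁵` changes the distances measured by `ι : X → ℝ⁵` at least by
the factor `a` and at most by the factor `ρ a` -/
def Between {X : Type} (ι G : X → R5) (a ρ : ℝ) (U : Set X) : Prop :=
  ∀ p ∈ U, ∀ q ∈ U, a * ‖ι p - ι q‖ ≤ ‖G p - G q‖ ∧ ‖G p - G q‖ ≤ ρ * (a * ‖ι p - ι q‖)

/-- the path `F_t : X → ℝ⁵`, `0 ≤ t ≤ 1`, has local distortion at most `ρ`: every `(t₀, x)` has a
neighbourhood on which each `F_t` is `ρ`-bi-Lipschitz up to a factor depending on `t` -/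
def BiLipschitzPath {X : Type} [TopologicalSpace X] (ι : X → R5) (ρ : ℝ) (F : ℝ × X → R5) : Prop :=
  ∀ t₀ ∈ Icc (0 : ℝ) 1, ∀ x : X, ∃ U ∈ 𝓝 x, ∃ s > 0, ∀ t ∈ Icc (0 : ℝ) 1, |t - t₀| ≤ s →
    ∃ a > 0, Between ι (fun p => F (t, p)) a ρ U

end defs

/-- the unit sphere of `ℝ⁵` -/
abbrev S4 : Type := sphere (0 : EuclideanSpace ℝ (Fin (4 + 1))) 1

/-- the inclusion of the unit sphere -/
def inc (x : S4) : R5 := x

/-- the bound for the golden ratio -/
theorem golden {ρ : ℝ} (hρ : 1 ≤ ρ) (h : ρ < Real.goldenRatio) :
    ρ ^ 2 * (Real.sqrt 5 - 1) < Real.sqrt 5 + 1 := by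
  have h5 : Real.sqrt 5 ^ 2 = 5 := Real.sq_sqrt (by norm_num)
  have h1 : 2 < Real.sqrt 5 := by
    rw [show (2 : ℝ) = Real.sqrt (2 ^ 2) by rw [Real.sqrt_sq (by norm_num)]]
    exact Real.sqrt_lt_sqrt (by norm_num) (by norm_num)
  have h2 : ρ ^ 2 < Real.goldenRatio ^ 2 := by
    apply pow_lt_pow_left₀ h (by linarith) (by norm_num)
  have h3 : Real.goldenRatio ^ 2 * (Real.sqrt 5 - 1) = Real.sqrt 5 + 1 := by
    unfold Real.goldenRatio
    nlinarith
  calc ρ ^ 2 * (Real.sqrt 5 - 1) < Real.goldenRatio ^ 2 * (Real.sqrt 5 - 1) :=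
        mul_lt_mul_of_pos_right h2 (by linarith)
    _ = _ := h3

/-- A diffeomorphism of `S⁴` which is joined to the identity by a path of homeomorphisms of local
distortion at most `ρ`, where `ρ` is less than the golden ratio, is smoothly isotopic to the identity;
the smooth isotopy can be chosen in any neighbourhood of the path. -/
theorem result (ρ : ℝ) (hρ : 1 ≤ ρ) (hρg : ρ < Real.goldenRatio) (φ : S4 → S4) (hφ : IsDiffeo φ)
    (f : ℝ × S4 → S4) (hf : IsTopIsotopy φ f) (hfa : BiLipschitzPath inc ρ (fun q => inc (f q)))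
    (ε : ℝ) (hε : ε > 0) :
    ∃ K : ℝ × S4 → S4, IsSmoothIsotopy φ K ∧
      ∀ t, ∃ t' ∈ Icc (0 : ℝ) 1, ∀ x, ‖inc (K (t, x)) - inc (f (t', x))‖ ≤ ε := by
  have hfact := Fact.mk (@finrank_euclideanSpace_fin ℝ _ (4 + 1))
  have hconn : ConnectedSpace S4 := by
    rw [← isConnected_iff_connectedSpace]
    apply isConnected_sphere _ _ zero_le_one
    rw [← Module.finrank_eq_rank, finrank_euclideanSpace, Fintype.card_fin]
    exact_mod_cast (by norm_num : 1 < 4 + 1)
  have hid : IsDiffeo (fun x : S4 => x) := ⟨Diffeomorph.refl _ _ _, fun x => rfl⟩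
  exact Pool.Agent.U987.BI.suff_bl 4 S4 S4 5 5 _ Pool.Agent.U498.AI.sph_emb _
    Pool.Agent.U498.AI.sph_emb ρ hρ (by exact_mod_cast golden hρ hρg) (fun x => x) φ hid hφ f hf hfa
    ε hε

end Pool.Agent.Results.MP_8e98f2_gt.GoldenRatioIsotopy
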