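import Pool.Agent.U498.AI.Sph

/-!
# MP_8e98f2_gt, Q1: a criterion for the triviality of diffeomorphisms of `S⁴`

Q1 asks for a barbell in `S⁴` whose implantation, a diffeomorphism `φ` of `S⁴` homotopic to the
identity, is not smoothly isotopic to the identity.  By theorems of Perron and Quinn every
implantation is isotopic to the identity through homeomorphisms.  The theorem says how far this path
of homeomorphisms has to be from smooth: `φ` represents the trivial element of `π₀ Diff(S⁴)` if and
only if it is joined to the identity by a path of homeomorphisms `f_t : S⁴ → S⁴`, `0 ≤ t ≤ 1`, which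
is `c`-close to affine maps at the scales `r_k`, where `c > 0` is any constant with `c (1 + √5) < 1`
(for instance `c = 3/10`) and `r₀, r₁, …` any sequence of positive numbers which tends to `0`: every
`(t₀, x)` has a smooth parametrization `A` of a neighbourhood of `x = A 0` in the round sphere,
isometric to first order at `0`, such that for all large `k`, all `t` near `t₀` and all `y` near `0`
there is an affine map `p ↦ a + L p` from `ℝ⁴` to `ℝ⁵` with

`|f_t A p - (a + L p)| ≤ c r_k |L v|` for `|p - y| ≤ r_k` and all unit vectors `v`.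

So for a barbell with non-trivial implantation every such path violates this at all small scales.
Moreover the smooth isotopy can be chosen in any neighbourhood of the path: for every `ε > 0` with
all its stages `ε`-close to stages of `f`.

The linear parts `L` may depend on `t`, on the point and on the scale, and may have arbitrarily
large distortion and arbitrarily small or large norm: the maps `f_t` need not be Lipschitz or
quasiconformal, nothing is assumed about the dependence on `t` except continuity, and between the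
scales `r_k` the maps are not restricted. No `f_t` with `0 < t < 1` need be smooth anywhere.

Proof: the maps `f_t` (extended to a neighbourhood of `S⁴` in `ℝ⁵`) are mollified with one radius
slightly less than `r_k` (for one large `k`) and projected back to `S⁴`; the mollified maps are
immersions, uniformly in `t`, depend continuously on `t` in the `C^1` topology, and so do their
straight line homotopies for nearby `t`; at the ends the mollified maps are `C^1`-close to the given
diffeomorphisms. All the projected maps are local diffeomorphisms close to homeomorphisms, hence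
diffeomorphisms.
-/

set_option autoImplicit false

open Set Filter Topology Metric Function
open scoped Manifold ContDiff

namespace Pool.Agent.Results.MP_8e98f2_gt.NearlyAffineIsotopy

/-- `ℝ⁴` -/
abbrev R4 : Type := EuclideanSpace ℝ (Fin 4)

/-- `ℝ⁵` -/
abbrev R5 : Type := EuclideanSpace ℝ (Fin (4 + 1))

section defs

variable {X : Type} [TopologicalSpace X] [ChartedSpace R4 X]

/-- `φ` is a diffeomorphism of `X` -/
def IsDiffeo (φ : X → X) : Prop := ∃ Φ : X ≃ₘ^∞⟮𝓡 4, 𝓡 4⟯ X, ∀ x, Φ x = φ x

/-- `K` is a smooth path of diffeomorphisms of `X` from the identity to `φ` -/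
def IsSmoothIsotopy (φ : X → X) (K : ℝ × X → X) : Prop :=
  ContMDiff ((𝓘(ℝ, ℝ)).prod (𝓡 4)) (𝓡 4) ∞ K ∧ (∀ t, IsDiffeo (fun x => K (t, x))) ∧
    (∀ x, K (0, x) = x) ∧ ∀ x, K (1, x) = φ x

/-- `φ` is smoothly isotopic to the identity: it represents the trivial element of `π₀ Diff(X)` -/
def IsTrivial (φ : X → X) : Prop := ∃ K : ℝ × X → X, IsSmoothIsotopy φ K

/-- `f_t`, `0 ≤ t ≤ 1`, is a continuous path of bijections (hence of homeomorphisms, if `X` is
compact and Hausdorff) of `X` from the identity to `φ` -/
def IsTopIsotopy {X : Type} [TopologicalSpace X] (φ : X → X) (f : ℝ × X → X) : Prop :=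
  ContinuousOn f (Icc (0 : ℝ) 1 ×ˢ univ) ∧ (∀ t ∈ Icc (0 : ℝ) 1, Bijective (fun x => f (t, x))) ∧
    (∀ x, f (0, x) = x) ∧ ∀ x, f (1, x) = φ x

/-- on the ball of radius `r` around `y` the map `G : ℝ⁴ → ℝ⁵` differs from the affine map
`p ↦ a + L p` by at most `c r |L v|`, for every unit vector `v` -/
def NearlyAffineOn (G : R4 → R5) (c r : ℝ) (y : R4) (a : R5) (L : R4 →L[ℝ] R5) : Prop :=
  ∀ p, ‖p - y‖ ≤ r → ∀ v, ‖v‖ = 1 → ‖G p - (a + L p)‖ ≤ c * (r * ‖L v‖)

/-- the path `F_t : X → ℝ⁵`, `0 ≤ t ≤ 1`, is `c`-close to affine maps at the scales `r k`: at every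
`(t₀, x)`, in a smooth parametrization `A` of a neighbourhood of `x = A 0`, isometric to first order
at `0` for the metric induced by `ι : X → ℝ⁵`, for all large `k`, all `t` near `t₀` and all `y` near
`0` some affine map is `c`-close to `F_t ∘ A` on the ball of radius `r k` around `y` -/
def NearlyAffinePath (ι : X → R5) (c : ℝ) (r : ℕ → ℝ) (F : ℝ × X → R5) : Prop :=
  ∀ t₀ ∈ Icc (0 : ℝ) 1, ∀ x : X, ∃ A : R4 → X, A 0 = x ∧
    IsLocalDiffeomorphAt (𝓡 4) (𝓡 4) ∞ A 0 ∧
    (∀ v, ‖fderiv ℝ (fun w => ι (A w)) 0 v‖ = ‖v‖) ∧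
    ∃ s > 0, ∃ k₀ : ℕ, ∀ k ≥ k₀, ∀ t ∈ Icc (0 : ℝ) 1, |t - t₀| ≤ s → ∀ y, ‖y‖ ≤ s → ∃ a L,
      NearlyAffineOn (fun p => F (t, A p)) c (r k) y a L

/-- for every `ε > 0` there is a smooth path of diffeomorphisms from the identity to `φ` with every
stage `ε`-close to a stage of `f` (distances measured by `ι : X → ℝ⁵`) -/
def IsApproximated (ι : X → R5) (φ : X → X) (f : ℝ × X → X) : Prop :=
  ∀ ε > 0, ∃ K : ℝ × X → X, IsSmoothIsotopy φ K ∧ ∀ t, ∃ t' ∈ Icc (0 : ℝ) 1, ∀ x,
    ‖ι (K (t, x)) - ι (f (t', x))‖ ≤ ε

end defs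

/-- the unit sphere of `ℝ⁵` -/
abbrev S4 : Type := sphere (0 : EuclideanSpace ℝ (Fin (4 + 1))) 1

/-- the inclusion of the unit sphere -/
def inc (x : S4) : R5 := x

/-- A diffeomorphism of `S⁴` is smoothly isotopic to the identity if and only if it is joined to the
identity by a path of homeomorphisms which is `c`-close to affine maps at the scales `r k`; the
smooth isotopy can be chosen in any neighbourhood of the path. -/
theorem result (c : ℝ) (hc0 : 0 < c) (hc : c * (1 + Real.sqrt 5) < 1)
    (r : ℕ → ℝ) (hr : ∀ k, 0 < r k) (hr0 : Tendsto r atTop (𝓝 0))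
    (φ : S4 → S4) (hφ : IsDiffeo φ) :
    (IsTrivial φ ↔ ∃ f : ℝ × S4 → S4, IsTopIsotopy φ f ∧
      NearlyAffinePath inc c r (fun q => inc (f q))) ∧
    ∀ f : ℝ × S4 → S4, IsTopIsotopy φ f → NearlyAffinePath inc c r (fun q => inc (f q)) →
      IsApproximated inc φ f := by
  have hfact := Fact.mk (@finrank_euclideanSpace_fin ℝ _ (4 + 1))
  have hconn : ConnectedSpace S4 := by
    rw [← isConnected_iff_connectedSpace]
    apply isConnected_sphere _ _ zero_le_one
    rw [← Module.finrank_eq_rank, finrank_euclideanSpace, Fintype.card_fin]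
    exact_mod_cast (by norm_num : 1 < 4 + 1)
  have hid : IsDiffeo (fun x : S4 => x) := ⟨Diffeomorph.refl _ _ _, fun x => rfl⟩
  have hsuff : ∀ f : ℝ × S4 → S4, IsTopIsotopy φ f → NearlyAffinePath inc c r (fun q => inc (f q)) →
      IsApproximated inc φ f :=
    fun f hf hfa ε hε => Pool.Agent.U498.AI.suff_final 4 S4 S4 5 5 _
      Pool.Agent.U498.AI.sph_emb _ Pool.Agent.U498.AI.sph_emb c hc0.le (by exact_mod_cast hc) r hr hr0
      (fun x => x) φ hid hφ f hf hfa ε hε
  refine ⟨⟨fun h => ?_, ?_⟩, hsuff⟩
  · exact Pool.Agent.U498.AI.nec_final 4 S4 S4 5 5 _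
      Pool.Agent.U498.AI.sph_emb _ Pool.Agent.U498.AI.sph_emb c hc0 r hr0 (fun x => x) φ h
  · rintro ⟨f, hf, hfa⟩
    obtain ⟨K, hK, -⟩ := hsuff f hf hfa 1 one_pos
    exact ⟨K, hK⟩

end Pool.Agent.Results.MP_8e98f2_gt.NearlyAffineIsotopy
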