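import Pool.Agent.U211.ISO.Glob

/-!
# MP_8e98f2_gt, Q1: diffeomorphisms of `S⁴` of distortion less than `√3` in a coordinate `ℝ⁴`

Q1 asks for a barbell in `S⁴` whose implantation is not smoothly isotopic to the identity. An
implantation `φ` is supported in a ball: in the coordinates of an open embedding `h : ℝ⁴ → S⁴` (there
are many) it is a diffeomorphism `F` of `ℝ⁴` which is the identity off a compact set. We show: `φ` is
trivial if for one such `h` the distortion of `F` is less than `√3`: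

`a |w| ≤ |DF(x) w| ≤ ρ a |w|` for all `x`, `w`, for some `a > 0` and `ρ < √3`.

More generally it is sufficient that for some radius `r > 0` this is so for the distances in every
ball of radius `r`, where `a` may depend on the ball, and no point is moved by more than `δ r`,
`δ < 1/2`. The same is true for the products of finitely many such diffeomorphisms, with different `h`.
The derivative of `F` may be far from the identity everywhere, for example it may rotate by arbitrarily
large angles. So for a barbell with non-trivial implantation the distortion is at least `√3` in all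
coordinates, and the implantation is not a product of diffeomorphisms of smaller distortion.

The theorem is true in all dimensions `n` and for all manifolds `X`, with the conditions
`(ρ² - 1) √n < ρ² + 1` and `δ √n < 1`.

Proof: `F_t(x)` is the mean of `F` over the ball of radius `t` about `x` (with a smooth radial kernel
which is nearly constant on the ball). By polarization the scalar product of the derivative of `F_t` in
the direction `w` with `F(x + t w) - F(x - t w)` is positive for `0 < t ≤ r`, so `F_t` is a local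
diffeomorphism and the identity off a compact set, hence a diffeomorphism. The derivative of `F_r` is
closer to the identity than `1`, so the straight line to the identity finishes the isotopy.
-/

set_option autoImplicit false

open Set Filter Topology Metric Function
open scoped Manifold ContDiff

namespace Pool.Agent.Results.MP_8e98f2_gt.SmallDistortion

open Pool.Agent.U211.ISO

/-- `ℝⁿ` -/
abbrev R (n : ℕ) : Type := EuclideanSpace ℝ (Fin n)

/-- the unit sphere of `ℝ⁵` -/
abbrev S4 : Type := sphere (0 : EuclideanSpace ℝ (Fin (4 + 1))) 1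

/-- `F` is a smooth map `ℝⁿ → ℝⁿ`, the identity off a compact set -/
def IsCompactlySupported (n : ℕ) (F : R n → R n) : Prop :=
  ContDiff ℝ ∞ F ∧ ∃ r, ∀ x, r ≤ ‖x‖ → F x = x

/-- `F` moves no point by more than `δ r` and has distortion at most `ρ` in every ball of radius `r`:
the distances are multiplied by factors between `a` and `ρ a`, where `a > 0` may depend on the ball -/
def IsMild (n : ℕ) (ρ δ r : ℝ) (F : R n → R n) : Prop :=
  (∀ x, ‖F x - x‖ ≤ δ * r) ∧ ∀ x, ∃ a > 0, ∀ p q, ‖p - x‖ ≤ r → ‖q - x‖ ≤ r →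
    a * ‖p - q‖ ≤ ‖F p - F q‖ ∧ ‖F p - F q‖ ≤ ρ * (a * ‖p - q‖)

section

variable {n : ℕ} {X : Type} [TopologicalSpace X] [ChartedSpace (R n) X]

/-- `φ : X → X` is given by the map `F` of `ℝⁿ` in the coordinates `h`, a diffeomorphism of `ℝⁿ` onto
an open subset of `X`, and it is the identity off this subset -/
def GivenBy (h : R n → X) (F : R n → R n) (φ : X → X) : Prop :=
  (Injective h ∧ ∀ z, IsLocalDiffeomorphAt (𝓡 n) (𝓡 n) ∞ h z) ∧ (∀ z, φ (h z) = h (F z)) ∧
    ∀ x ∉ range h, φ x = x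

/-- the product of the maps in the list -/
def product (L : List (X → X)) : X → X := L.foldr (fun φ ψ x => φ (ψ x)) fun x => x

end

/-- **Diffeomorphisms of small distortion in a coordinate `ℝⁿ` are isotopic to the identity.** -/
theorem result :
    (∀ (n : ℕ) (X : Type) [TopologicalSpace X] [ChartedSpace (R n) X] [IsManifold (𝓡 n) ∞ X]
      [T2Space X] (L : List (X → X)),
      (∀ φ ∈ L, ∃ h F, GivenBy h F φ ∧ IsCompactlySupported n F ∧ ∃ ρ δ r : ℝ,
        (ρ ^ 2 - 1) * Real.sqrt n < ρ ^ 2 + 1 ∧ δ * Real.sqrt n < 1 ∧ 0 < r ∧ IsMild n ρ δ r F) →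
      ∃ K, IsSmoothIsotopy n (product L) K) ∧
    (∀ L : List (S4 → S4),
      (∀ φ ∈ L, ∃ (h : R 4 → S4) (F : R 4 → R 4), GivenBy h F φ ∧ IsCompactlySupported 4 F ∧
        ((∃ ρ δ r : ℝ, ρ < Real.sqrt 3 ∧ δ < 1 / 2 ∧ 0 < r ∧ IsMild 4 ρ δ r F) ∨
          ∃ ρ a : ℝ, ρ < Real.sqrt 3 ∧ 0 < a ∧
            ∀ x w, a * ‖w‖ ≤ ‖fderiv ℝ F x w‖ ∧ ‖fderiv ℝ F x w‖ ≤ ρ * (a * ‖w‖))) →
      ∃ K, IsSmoothIsotopy 4 (product L) K) := by
  have hfact := Fact.mk (@finrank_euclideanSpace_fin ℝ _ (4 + 1))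
  have gen : ∀ (n : ℕ) (X : Type) [TopologicalSpace X] [ChartedSpace (R n) X]
      [T2Space X] (L : List (X → X)),
      (∀ φ ∈ L, ∃ h F, GivenBy h F φ ∧ IsCompactlySupported n F ∧ ∃ ρ δ r : ℝ,
        (ρ ^ 2 - 1) * Real.sqrt n < ρ ^ 2 + 1 ∧ δ * Real.sqrt n < 1 ∧ 0 < r ∧ IsMild n ρ δ r F) →
      ∃ K, IsSmoothIsotopy n (product L) K := by
    intro n X _ _ _ L
    induction L with
    | nil => exact fun _ => ⟨_, isSmoothIsotopy_id⟩
    | cons φ L ih =>
      intro hL
      obtain ⟨K, hK⟩ := ih fun ψ hψ => hL ψ (List.mem_cons_of_mem _ hψ)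
      obtain ⟨h, F, ⟨⟨hi, hl⟩, hφ1, hφ2⟩, ⟨hFs, r', hr'⟩, ρ, δ, r, hρ, hδ, hr, hF1, hF2⟩ :=
        hL φ List.mem_cons_self
      have hρ' : ((max ρ 1) ^ 2 - 1) * Real.sqrt n < (max ρ 1) ^ 2 + 1 := by
        rcases le_total ρ 1 with h1 | h1
        · rw [max_eq_right h1]
          norm_num
        · rw [max_eq_left h1]
          exact hρ
      obtain ⟨k, k1, k2, k3, k4, k5⟩ := exists_path (le_max_right ρ 1) hρ' hδ hr hFs hr' hF1
        fun x => by
          obtain ⟨a, ha, hx⟩ := hF2 x
          refine ⟨a, ha, fun p q hp hq => ⟨(hx p q hp hq).1, (hx p q hp hq).2.trans ?_⟩⟩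
          exact mul_le_mul_of_nonneg_right (le_max_left _ _) (by positivity)
      have h1 := ext_isotopy hi hl k1 k2 k3 k4 k5
      have h2 : ext h F = φ := by
        funext x
        by_cases hx : x ∈ range h
        · obtain ⟨z, rfl⟩ := hx
          rw [ext_of hi, hφ1]
        · rw [ext_off _ hx, hφ2 x hx]
      rw [h2] at h1
      exact ⟨_, h1.comp hK⟩
  refine ⟨fun n X _ _ _ _ L hL => gen n X L hL, fun L hL => gen 4 S4 L fun φ hφ => ?_⟩
  have h4 : Real.sqrt ((4 : ℕ) : ℝ) = 2 := by
    rw [show (((4 : ℕ) : ℝ)) = 2 ^ 2 by norm_num]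
    exact Real.sqrt_sq (by norm_num)
  have key : ∀ ρ : ℝ, 0 ≤ ρ → ρ < Real.sqrt 3 → (ρ ^ 2 - 1) * Real.sqrt ((4 : ℕ) : ℝ) < ρ ^ 2 + 1 := by
    intro ρ h0 hρ
    have h1 : ρ ^ 2 < 3 := by
      have := Real.sq_sqrt (show (0 : ℝ) ≤ 3 by norm_num)
      nlinarith [Real.sqrt_nonneg 3]
    rw [h4]
    linarith
  obtain ⟨h, F, hG, hF, hcase⟩ := hL φ hφ
  refine ⟨h, F, hG, hF, ?_⟩
  have h3 : (0 : ℝ) < Real.sqrt 3 := Real.sqrt_pos.2 (by norm_num)
  rcases hcase with ⟨ρ, δ, r, hρ, hδ, hr, hM1, hM2⟩ | ⟨ρ, a, hρ, ha, hD⟩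
  · refine ⟨max ρ 0, δ, r, key _ (le_max_right _ _) (max_lt hρ h3), ?_, hr, hM1, fun x => ?_⟩
    · rw [h4]
      linarith
    · obtain ⟨b, hb, hx⟩ := hM2 x
      refine ⟨b, hb, fun p q hp hq => ⟨(hx p q hp hq).1, (hx p q hp hq).2.trans ?_⟩⟩
      exact mul_le_mul_of_nonneg_right (le_max_left _ _) (by positivity)
  · obtain ⟨hFs, r', hr'⟩ := hF
    obtain ⟨C, hC⟩ := exists_move hFs.continuous hr'
    obtain ⟨r, hr⟩ : ∃ r, r = max (4 * C) 1 := ⟨_, rfl⟩
    have hr1 : 4 * C ≤ r := by
      rw [hr]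
      exact le_max_left _ _
    have hr0 : 0 < r := by
      rw [hr]
      exact lt_of_lt_of_le one_pos (le_max_right _ _)
    have hdist := dist_of_deriv hFs hr' ha (b := max ρ 0 * a)
      (mul_nonneg (le_max_right _ _) ha.le) fun x w => ⟨(hD x w).1, (hD x w).2.trans (by
        rw [mul_assoc]
        exact mul_le_mul_of_nonneg_right (le_max_left _ _) (by positivity))⟩
    refine ⟨max ρ 0, 1 / 4, r, key _ (le_max_right _ _) (max_lt hρ h3), ?_, hr0, fun x => ?_,
      fun x => ⟨a, ha, fun p q _ _ => ⟨(hdist p q).1, ?_⟩⟩⟩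
    · rw [h4]
      norm_num
    · exact (hC x).trans (by linarith)
    · rw [← mul_assoc]
      exact (hdist p q).2

end Pool.Agent.Results.MP_8e98f2_gt.SmallDistortion
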